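import Mathlib

namespace Pool.Agent.Results.MP_c12a31_an.Approx

open Filter Topology Finset Matrix

/-- The minor `det K[x; y]`. -/
noncomputable def mnr {α β : Type} (K : α → β → ℝ) {n : ℕ} (x : Fin n → α) (y : Fin n → β) : ℝ :=
  (Matrix.of fun i j => K (x i) (y j)).det

/-- Totally nonnegative kernels. -/
def TN {α β : Type} [LinearOrder α] [LinearOrder β] (K : α → β → ℝ) : Prop :=
  ∀ (n : ℕ) (x : Fin n → α) (y : Fin n → β), 1 ≤ n → StrictMono x → StrictMono y → 0 ≤ mnr K x y

/-- Totally positive kernels. -/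
def TP {α β : Type} [LinearOrder α] [LinearOrder β] (K : α → β → ℝ) : Prop :=
  ∀ (n : ℕ) (x : Fin n → α) (y : Fin n → β), 1 ≤ n → StrictMono x → StrictMono y → 0 < mnr K x y

open Classical in
lemma cb {α β ι : Type} [LinearOrder ι] (s : Finset ι) (P : α → ι → ℝ) (Q : ι → β → ℝ) {n : ℕ}
    (x : Fin n → α) (y : Fin n → β) :
    mnr (fun a b => ∑ i ∈ s, P a i * Q i b) x y =
      ∑ f ∈ (Fintype.piFinset fun _ : Fin n => s).filter StrictMono, mnr P x f * mnr Q f y := by
  have h1 : mnr (fun a b => ∑ i ∈ s, P a i * Q i b) x y =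
      ∑ f ∈ Fintype.piFinset fun _ : Fin n => s, mnr P x f * ∏ j, Q (f j) (y j) := by
    simp only [mnr, det_apply', of_apply, Finset.prod_univ_sum, Finset.mul_sum, Finset.sum_mul]
    rw [Finset.sum_comm]
    refine Finset.sum_congr rfl fun f _ => Finset.sum_congr rfl fun σ _ => ?_
    rw [Finset.prod_mul_distrib, mul_assoc]
  have h2 : ∀ f : Fin n → ι, mnr P x f * mnr Q f y =
      ∑ σ : Equiv.Perm (Fin n), mnr P x (f ∘ σ) * ∏ j, Q ((f ∘ σ) j) (y j) := by
    intro f
    rw [mnr.eq_def Q, det_apply', Finset.mul_sum]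
    refine Finset.sum_congr rfl fun σ _ => ?_
    have : mnr P x (f ∘ σ) = Equiv.Perm.sign σ * mnr P x f :=
      det_permute' σ (Matrix.of fun i j => P (x i) (f j))
    rw [this]
    simp only [of_apply, Function.comp]
    ring
  rw [h1, ← Finset.sum_filter_of_ne (p := Function.Injective), Finset.sum_congr rfl fun f _ => h2 f,
    ← Finset.sum_product']
  · symm
    refine Finset.sum_bij (fun p _ => p.1 ∘ p.2) ?_ ?_ ?_ fun _ _ => rfl
    · rintro ⟨f, σ⟩ h
      simp only [mem_product, mem_filter, Fintype.mem_piFinset, mem_univ, and_true] at h ⊢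
      exact ⟨fun i => h.1 _, h.2.injective.comp σ.injective⟩
    · rintro ⟨f, σ⟩ h ⟨g, τ⟩ h' e
      simp only [mem_product, mem_filter, Fintype.mem_piFinset, mem_univ, and_true] at h h' e
      have : f = g := (h.2.range_inj h'.2).1 (by
        rw [← σ.surjective.range_comp f, ← τ.surjective.range_comp g, e])
      subst this
      exact Prod.ext rfl (Equiv.ext fun i => h.2.injective (congrFun e i))
    · intro f h
      simp only [mem_filter, Fintype.mem_piFinset] at h
      refine ⟨(f ∘ Tuple.sort f, (Tuple.sort f)⁻¹), ?_, by ext i; simp⟩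
      simp only [mem_product, mem_filter, Fintype.mem_piFinset, mem_univ, and_true]
      exact ⟨fun i => h.1 _, (Tuple.monotone_sort f).strictMono_of_injective
        (h.2.comp (Tuple.sort f).injective)⟩
  · intro f _ h
    by_contra hf
    obtain ⟨i, j, e, hij⟩ := Function.not_injective_iff.1 hf
    exact h (by rw [mnr, det_zero_of_column_eq hij (fun k => by simp [e]), zero_mul])

lemma expz : ∀ (n : ℕ) (y c x : Fin n → ℝ), StrictMono y → StrictMono x →
    (∀ i, ∑ j, Real.exp (x i * y j) * c j = 0) → c = 0 := by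
  intro n
  induction n with
  | zero => intro y c x _ _ _; exact Subsingleton.elim _ _
  | succ n ih =>
    intro y c x hy hx h
    let F : ℝ → ℝ := fun t => c 0 + ∑ j : Fin n, Real.exp (t * (y j.succ - y 0)) * c j.succ
    have hF : ∀ i, F (x i) = 0 := by
      intro i
      have := h i
      rw [Fin.sum_univ_succ] at this
      have e : Real.exp (x i * y 0) * F (x i) = 0 := by
        rw [← this]
        simp only [F, mul_add, Finset.mul_sum, ← mul_assoc, ← Real.exp_add]
        congr 1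
        exact Finset.sum_congr rfl fun j _ => by congr 2; ring
      exact (mul_eq_zero.1 e).resolve_left (Real.exp_ne_zero _)
    have hd : ∀ t, HasDerivAt F (∑ j : Fin n, Real.exp (t * (y j.succ - y 0)) *
        ((y j.succ - y 0) * c j.succ)) t := by
      intro t
      refine HasDerivAt.const_add _ (HasDerivAt.fun_sum fun j _ => ?_)
      simpa [mul_assoc] using (((hasDerivAt_id t).mul_const (y j.succ - y 0)).exp).mul_const (c j.succ)
    have hr : ∀ i : Fin n, ∃ t ∈ Set.Ioo (x i.castSucc) (x i.succ), _ = (0 : ℝ) := fun i =>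
      exists_hasDerivAt_eq_zero (hx i.castSucc_lt_succ)
        (fun t _ => (hd t).continuousAt.continuousWithinAt) (by rw [hF, hF]) fun t _ => hd t
    choose ξ hξ hξ0 using hr
    have h0 := ih (fun j => y j.succ - y 0) (fun j => (y j.succ - y 0) * c j.succ) ξ
      (fun a b hab => sub_lt_sub_right (hy (Fin.succ_lt_succ_iff.2 hab)) _)
      (fun a b hab => ((hξ a).2.trans_le (hx.monotone (by
        rw [Fin.le_def]; simp; omega))).trans (hξ b).1) hξ0
    have h1 : ∀ j : Fin n, c j.succ = 0 := fun j =>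
      (mul_eq_zero.1 (congrFun h0 j)).resolve_left (sub_pos.2 (hy j.succ_pos)).ne'
    have h2 := hF 0
    simp only [F, h1, mul_zero, Finset.sum_const_zero, add_zero] at h2
    funext j
    refine Fin.cases h2 h1 j

lemma exp_tp {n : ℕ} (x y : Fin n → ℝ) (hx : StrictMono x) (hy : StrictMono y) :
    0 < mnr (fun a b => Real.exp (a * b)) x y := by
  let z : ℝ → Fin n → ℝ := fun s j => (1 - s) * j + s * y j
  have hz : ∀ s ∈ Set.Icc (0 : ℝ) 1, mnr (fun a b => Real.exp (a * b)) x (z s) ≠ 0 := by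
    intro s hs h
    obtain ⟨c, hc, h⟩ := Matrix.exists_mulVec_eq_zero_iff.2 h
    refine hc (expz n (z s) c x (fun a b hab => ?_) hx fun i => congrFun h i)
    have h1 : ((a : ℕ) : ℝ) < (b : ℕ) := by exact_mod_cast hab
    have h2 := hy hab
    simp only [z]
    rcases hs.1.eq_or_lt with h0 | h0
    · rw [← h0]; simpa
    · nlinarith [hs.2]
  have hc : Continuous fun s => mnr (fun a b => Real.exp (a * b)) x (z s) :=
    Continuous.matrix_det (continuous_matrix fun i j => by simp only [of_apply, z]; fun_prop)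
  have h0 : 0 < mnr (fun a b => Real.exp (a * b)) x (z 0) := by
    have : mnr (fun a b => Real.exp (a * b)) x (z 0) =
        (vandermonde fun i => Real.exp (x i)).det := by
      refine congrArg Matrix.det ?_
      ext i j; simp [z, ← Real.exp_nat_mul, mul_comm]
    rw [this, det_vandermonde]
    exact Finset.prod_pos fun i _ => Finset.prod_pos fun j hj =>
      sub_pos.2 (Real.exp_lt_exp.2 (hx (Finset.mem_Ioi.1 hj)))
  have h1 : z 1 = y := by funext j; simp [z]
  by_contra hn
  obtain ⟨s, hs, h⟩ := intermediate_value_Icc' zero_le_one hc.continuousOn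
    (show (0 : ℝ) ∈ _ from ⟨by simpa [h1] using hn, h0.le⟩)
  exact hz s hs h

lemma gauss_tp {n : ℕ} {l : ℝ} (hl : 0 < l) (x y d : Fin n → ℝ) (hx : StrictMono x)
    (hy : StrictMono y) (hd : ∀ i, 0 < d i) :
    0 < (Matrix.of fun i j => Real.exp (-(l * (x i - y j) ^ 2)) / d i).det := by
  have h := exp_tp (fun i => 2 * l * x i) y (fun a b hab => by
    have := hx hab; simp only; nlinarith) hy
  have e : (Matrix.of fun i j => Real.exp (-(l * (x i - y j) ^ 2)) / d i) =
      Matrix.of fun i j => (Real.exp (-(l * x i ^ 2)) / d i) * (Matrix.of fun i j =>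
        Real.exp (-(l * y j ^ 2)) * (Matrix.of fun i j => Real.exp (2 * l * x i * y j)) i j) i j := by
    ext i j
    simp only [of_apply]
    rw [div_mul_eq_mul_div, ← Real.exp_add, ← Real.exp_add]
    congr 2; ring
  rw [e, det_mul_column, det_mul_row]
  exact mul_pos (Finset.prod_pos fun i _ => div_pos (Real.exp_pos _) (hd i))
    (mul_pos (Finset.prod_pos fun i _ => Real.exp_pos _) h)

def blk {α β : Type} (K : α → β → ℝ) (e : ℕ → ℝ) (a : α ⊕ₗ ℕ) (b : β ⊕ₗ ℕ) : ℝ :=
  match ofLex a, ofLex b with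
  | .inl a, .inl b => K a b
  | .inr k, .inr l => if k = l then e k else 0
  | _, _ => 0

def lev {α : Type} (a : α ⊕ₗ ℕ) : ℕ := (ofLex a).elim (fun _ => 0) (· + 1)

lemma lev_mono {α : Type} [LinearOrder α] {a b : α ⊕ₗ ℕ} (h : a < b) :
    lev a < lev b ∨ lev b = 0 := by
  rcases a with a | a <;> rcases b with b | b
  · exact Or.inr rfl
  · exact Or.inl (Nat.succ_pos _)
  · exact absurd h Sum.Lex.not_inr_lt_inl
  · exact Or.inl (Nat.succ_lt_succ (Sum.Lex.inr_lt_inr_iff.1 h))

lemma lev_mono' {α : Type} [LinearOrder α] {a b : α ⊕ₗ ℕ} (h : a ≤ b) : lev a ≤ lev b := by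
  rcases a with a | a <;> rcases b with b | b
  · exact le_rfl
  · exact Nat.zero_le _
  · exact absurd h Sum.Lex.not_inr_le_inl
  · exact Nat.succ_le_succ (Sum.Lex.inr_le_inr_iff.1 h)

lemma blk_ne {α β : Type} (K : α → β → ℝ) (e : ℕ → ℝ) {a : α ⊕ₗ ℕ} {b : β ⊕ₗ ℕ}
    (h : lev a ≠ lev b) : blk K e a b = 0 := by
  rcases a with a | a <;> rcases b with b | b
  · exact absurd rfl h
  · rfl
  · rfl
  · exact if_neg fun e => h (congrArg (· + 1) e)

lemma blk_tn {α β : Type} [LinearOrder α] [LinearOrder β] {K : α → β → ℝ} (hK : TN K) {e : ℕ → ℝ}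
    (he : ∀ k, 0 ≤ e k) (n : ℕ) : ∀ (x : Fin n → α ⊕ₗ ℕ) (y : Fin n → β ⊕ₗ ℕ), StrictMono x →
      StrictMono y → 0 ≤ mnr (blk K e) x y := by
  induction n with
  | zero => intro x y _ _; simp [mnr]
  | succ n ih =>
    intro x y hx hy
    rcases lt_trichotomy (lev (x (Fin.last n))) (lev (y (Fin.last n))) with h | h | h
    · exact (det_eq_zero_of_column_eq_zero (Fin.last n) fun i => blk_ne K e
        ((lev_mono' (hx.monotone (Fin.le_last i))).trans_lt h).ne).ge
    · rcases Nat.eq_zero_or_pos (lev (y (Fin.last n))) with h0 | h0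
      · have a1 : ∀ i, ∃ a, x i = toLex (Sum.inl a) := fun i => by
          have := lev_mono' (hx.monotone (Fin.le_last i))
          rcases hi : x i with a | a
          · exact ⟨a, rfl⟩
          · rw [hi, h, h0] at this; exact absurd this (Nat.not_succ_le_zero _)
        have a2 : ∀ i, ∃ a, y i = toLex (Sum.inl a) := fun i => by
          have := lev_mono' (hy.monotone (Fin.le_last i))
          rcases hi : y i with a | a
          · exact ⟨a, rfl⟩
          · rw [hi, h0] at this; exact absurd this (Nat.not_succ_le_zero _)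
        choose x' hx' using a1
        choose y' hy' using a2
        have := hK (n + 1) x' y' (by omega)
          (fun a b hab => Sum.Lex.inl_lt_inl_iff.1 (by rw [← hx', ← hx']; exact hx hab))
          (fun a b hab => Sum.Lex.inl_lt_inl_iff.1 (by rw [← hy', ← hy']; exact hy hab))
        simp only [mnr, hx', hy']
        exact this
      · rw [mnr, det_succ_row _ (Fin.last n), Fin.sum_univ_castSucc, Finset.sum_eq_zero, zero_add,
          ← two_mul, pow_mul, neg_one_sq, one_pow, one_mul, Fin.succAbove_last]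
        · refine mul_nonneg ?_ (ih _ _ (hx.comp Fin.strictMono_castSucc)
            (hy.comp Fin.strictMono_castSucc))
          rw [of_apply]
          revert h0 h
          rcases x (Fin.last n) with a | a <;> rcases y (Fin.last n) with b | b <;> intro h h0
          · exact absurd h0 (lt_irrefl _)
          · exact le_rfl
          · exact le_rfl
          · show 0 ≤ if a = b then e a else 0
            split_ifs
            · exact he _
            · exact le_rfl
        · intro j _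
          rw [of_apply, blk_ne, mul_zero, zero_mul]
          have := lev_mono (hy (Fin.castSucc_lt_last j))
          omega
    · exact (det_eq_zero_of_row_eq_zero (Fin.last n) fun i => blk_ne K e
        ((lev_mono' (hy.monotone (Fin.le_last i))).trans_lt h).ne').ge

noncomputable def Z {X : Set ℝ} (U : Finset X) (l : ℝ) (x : X) : ℝ :=
  ∑ u ∈ U, Real.exp (-(l * ((x : ℝ) - u) ^ 2))

noncomputable def nd {X : Set ℝ} (U : Finset X) (i : X ⊕ₗ ℕ) : ℝ :=
  (ofLex i).elim (fun u : X => (u : ℝ)) fun k : ℕ => ∑ u ∈ U, |(u : ℝ)| + 1 + k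

noncomputable def P {X : Set ℝ} (U : Finset X) (l : ℝ) (x : X) (i : X ⊕ₗ ℕ) : ℝ :=
  Real.exp (-(l * ((x : ℝ) - nd U i) ^ 2)) / Z U l x

def S {X : Set ℝ} (U : Finset X) (L : ℕ) : Finset (X ⊕ₗ ℕ) := U.disjSum (range L)

lemma sumS {X : Set ℝ} (U : Finset X) (L : ℕ) (f : X ⊕ₗ ℕ → ℝ) :
    ∑ i ∈ S U L, f i = ∑ u ∈ U, f (toLex (.inl u)) + ∑ k ∈ range L, f (toLex (.inr k)) :=
  Finset.sum_disjSum U (range L) f

lemma Zpos {X : Set ℝ} {U : Finset X} (hU : U.Nonempty) (l : ℝ) (x : X) : 0 < Z U l x :=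
  Finset.sum_pos (fun _ _ => Real.exp_pos _) hU

lemma Ppos {X : Set ℝ} {U : Finset X} (hU : U.Nonempty) {l : ℝ} (hl : 0 < l) {L n : ℕ}
    (x : Fin n → X) (f : Fin n → X ⊕ₗ ℕ) (hx : StrictMono x) (hf : StrictMono f)
    (h : ∀ i, f i ∈ S U L) : 0 < mnr (P U l) x f := by
  refine gauss_tp hl (fun i => x i) (fun j => nd U (f j)) (fun i => Z U l (x i)) hx
    (fun a b hab => ?_) fun i => Zpos hU l _
  have h1 := hf hab
  have h2 := h a
  simp only
  revert h1 h2
  rcases f a with u | u <;> rcases f b with v | v <;> intro h1 h2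
  · exact (Sum.Lex.inl_lt_inl_iff.1 h1 : u < v)
  · have h3 := Finset.single_le_sum (f := fun u : X => |(u : ℝ)|) (fun _ _ => abs_nonneg _)
      (Finset.inl_mem_disjSum.1 h2)
    show (u : ℝ) < ∑ u ∈ U, |(u : ℝ)| + 1 + v
    linarith [le_abs_self (u : ℝ), Nat.cast_nonneg (α := ℝ) v]
  · exact absurd h1 Sum.Lex.not_inr_lt_inl
  · have : (u : ℝ) < v := by exact_mod_cast Sum.Lex.inr_lt_inr_iff.1 h1
    show ∑ u ∈ U, |(u : ℝ)| + 1 + u < ∑ u ∈ U, |(u : ℝ)| + 1 + v
    linarith

lemma Ple {X : Set ℝ} {U : Finset X} (hU : U.Nonempty) {l : ℝ} (hl : 0 < l) (x : X) (i) :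
    0 ≤ P U l x i ∧ P U l x i ≤ 1 / Z U l x :=
  ⟨div_nonneg (Real.exp_pos _).le (Zpos hU l x).le, div_le_div_of_nonneg_right
    (Real.exp_le_one_iff.2 (neg_nonpos.2 (by positivity))) (Zpos hU l x).le⟩

lemma step {X Y : Set ℝ} {K : X → Y → ℝ} (hK : TN K) {U : Finset X} (hU : U.Nonempty)
    {V : Finset Y} (hV : V.Nonempty) {l ε : ℝ} (hl : 0 < l) (hε : 0 < ε) :
    ∃ K' : X → Y → ℝ, TP K' ∧ ∀ x y, |K' x y - ∑ v ∈ V, ∑ u ∈ U, P U l x (toLex (.inl u)) *
      P V l y (toLex (.inl v)) * K u v| ≤ 1 / Z U l x * (1 / Z V l y) * ε * 2 := by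
  let e : ℕ → ℝ := fun k => ε * (1 / 2) ^ k
  have he : ∀ k, 0 < e k := fun k => by positivity
  let t : X → Y → ℕ → ℝ := fun x y k => P U l x (toLex (.inr k)) * e k * P V l y (toLex (.inr k))
  have t0 : ∀ x y k, ‖t x y k‖ ≤ 1 / Z U l x * (1 / Z V l y) * ε * (1 / 2) ^ k := by
    intro x y k
    obtain ⟨a1, a2⟩ := Ple hU hl x (toLex (.inr k))
    obtain ⟨b1, b2⟩ := Ple hV hl y (toLex (.inr k))
    rw [Real.norm_of_nonneg (mul_nonneg (mul_nonneg a1 (he k).le) b1), mul_assoc _ ε,
      mul_right_comm]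
    exact mul_le_mul_of_nonneg_right (mul_le_mul a2 b2 b1 (a1.trans a2)) (he k).le
  have hg := fun c : ℝ => hasSum_geometric_two.mul_left c
  refine ⟨fun x y => ∑ v ∈ V, ∑ u ∈ U, P U l x (toLex (.inl u)) * P V l y (toLex (.inl v)) * K u v
    + ∑' k, t x y k, fun n x y _ hx hy => ?_, fun x y => ?_⟩
  swap
  · rw [add_sub_cancel_left]
    exact tsum_of_norm_bounded (hg _) (t0 x y)
  let f : ℕ → X → Y ⊕ₗ ℕ → ℝ := fun L x j => ∑ i ∈ S U L, P U l x i * blk K e i j
  have f1 : ∀ L x v, f L x (toLex (.inl v)) = ∑ u ∈ U, P U l x (toLex (.inl u)) * K u v := by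
    intro L x v
    simp [f, sumS, blk]
  have f2 : ∀ L x k, k < L → f L x (toLex (.inr k)) = P U l x (toLex (.inr k)) * e k := by
    intro L x k hk
    simp [f, sumS, blk, hk]
  let J : Fin n → Y ⊕ₗ ℕ := fun j => toLex (.inr j)
  have hJ : StrictMono J := fun a b hab => Sum.Lex.inr_lt_inr_iff.2 hab
  let J' : Fin n → X ⊕ₗ ℕ := fun j => toLex (.inr j)
  have hJ' : StrictMono J' := fun a b hab => Sum.Lex.inr_lt_inr_iff.2 hab
  have tr : ∀ g : Fin n → Y ⊕ₗ ℕ, mnr (fun j b => P V l b j) g y = mnr (P V l) y g := fun g =>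
    (det_transpose _).symm
  have low : ∀ L, n ≤ L → (∏ j : Fin n, e j) * mnr (P U l) x J' * mnr (P V l) y J ≤
      mnr (fun a b => ∑ j ∈ S V L, f L a j * P V l b j) x y := by
    intro L hL
    classical
    rw [cb (S V L) (f L) (fun j b => P V l b j)]
    refine le_trans (le_of_eq ?_) (Finset.single_le_sum (a := J) (fun g hg => ?_) ?_)
    · rw [tr, mnr.eq_def (f L), mnr.eq_def (P U l), ← det_mul_row]
      congr 2; ext i j
      simp only [of_apply, J, J']
      rw [f2 L _ _ (by omega), mul_comm]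
    · simp only [mem_filter, Fintype.mem_piFinset] at hg
      refine mul_nonneg ?_ (tr g ▸ (Ppos hV hl y g hy hg.2 hg.1).le)
      rw [cb]
      refine Finset.sum_nonneg fun h hh => ?_
      simp only [mem_filter, Fintype.mem_piFinset] at hh
      exact mul_nonneg (Ppos hU hl x h hx hh.2 hh.1).le (blk_tn hK (fun k => (he k).le) n h g hh.2 hg.2)
    · simp only [mem_filter, Fintype.mem_piFinset]
      exact ⟨fun j => Finset.inr_mem_disjSum.2 (Finset.mem_range.2 (by omega)), hJ⟩
  refine lt_of_lt_of_le (mul_pos (mul_pos (Finset.prod_pos (s := univ) fun (j : Fin n) _ => he j)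
    (Ppos (L := n) hU hl x J' hx hJ' fun j => Finset.inr_mem_disjSum.2 (Finset.mem_range.2 j.2)))
    (Ppos (L := n) hV hl y J hy hJ fun j => Finset.inr_mem_disjSum.2 (Finset.mem_range.2 j.2)))
    (ge_of_tendsto ?_ ((eventually_ge_atTop n).mono low))
  refine ((continuous_id.matrix_det).tendsto _).comp (f := fun L => Matrix.of fun i j =>
    ∑ k ∈ S V L, f L (x i) k * P V l (y j) k) ?_
  refine tendsto_pi_nhds.2 fun i => tendsto_pi_nhds.2 fun j => ?_
  refine ((Summable.of_norm_bounded (hg _).summable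
    (t0 (x i) (y j))).hasSum.tendsto_sum_nat.const_add _).congr fun L => ?_
  rw [of_apply, sumS]
  congr 1
  · refine Finset.sum_congr rfl fun v _ => ?_
    rw [f1, Finset.sum_mul]
    exact Finset.sum_congr rfl fun u _ => by ring
  · exact Finset.sum_congr rfl fun k hk => by rw [f2 L _ _ (Finset.mem_range.1 hk)]

lemma wsum {X : Set ℝ} {U : Finset X} (hU : U.Nonempty) (l : ℝ) (x : X) :
    ∑ u ∈ U, P U l x (toLex (.inl u)) = 1 := by
  simp only [P, ← Finset.sum_div]
  exact div_self (Zpos hU l x).ne'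

lemma Zlow {X : Set ℝ} {U : Finset X} {l δ : ℝ} (hl : 0 < l) {x u : X} (hu : u ∈ U)
    (h : dist u x < δ) : Real.exp (-(l * δ ^ 2)) ≤ Z U l x := by
  refine le_trans ?_ (Finset.single_le_sum (f := fun u : X => Real.exp (-(l * ((x : ℝ) - u) ^ 2)))
    (fun _ _ => (Real.exp_pos _).le) hu)
  rw [Subtype.dist_eq, Real.dist_eq, abs_sub_comm] at h
  rw [← sq_abs ((x : ℝ) - u)]
  gcongr

lemma wfar {X : Set ℝ} {U : Finset X} {l δ : ℝ} (hl : 0 < l) (hδ : 0 < δ) {x u u' : X}
    (hu : u ∈ U) (h : dist u x < δ) (h' : 2 * δ ≤ dist u' x) :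
    P U l x (toLex (.inl u')) ≤ 1 / (l * δ ^ 2) := by
  have h1 := Zlow hl hu h
  rw [Subtype.dist_eq, Real.dist_eq, abs_sub_comm] at h'
  have h2 : (2 * δ) ^ 2 ≤ ((x : ℝ) - u') ^ 2 := by
    rw [← sq_abs ((x : ℝ) - u')]; gcongr
  calc _ ≤ Real.exp (-(l * (2 * δ) ^ 2)) / Real.exp (-(l * δ ^ 2)) := by
        show Real.exp (-(l * ((x : ℝ) - u') ^ 2)) / _ ≤ _
        gcongr
    _ ≤ (Real.exp (l * δ ^ 2))⁻¹ := by
        rw [← Real.exp_sub, ← Real.exp_neg, Real.exp_le_exp]
        nlinarith [mul_pos hl (pow_pos hδ 2)]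
    _ ≤ _ := by
        rw [one_div]
        exact inv_anti₀ (by positivity) (by linarith [Real.add_one_le_exp (l * δ ^ 2)])

theorem result (X Y : Set ℝ) (K : X → Y → ℝ) (hK : TN K) :
    ∃ Km : ℕ → X → Y → ℝ, (∀ m, TP (Km m)) ∧ ∀ x y,
      ContinuousAt (fun p : X × Y => K p.1 p.2) (x, y) →
        Tendsto (fun m => Km m x y) atTop (𝓝 (K x y)) := by
  classical
  rcases isEmpty_or_nonempty X with hX | hX
  · exact ⟨fun _ => K, fun _ n x _ hn => hX.elim (x ⟨0, hn⟩), fun x => hX.elim x⟩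
  rcases isEmpty_or_nonempty Y with hY | hY
  · exact ⟨fun _ => K, fun _ n _ y hn => hY.elim (y ⟨0, hn⟩), fun _ y => hY.elim y⟩
  let U : ℕ → Finset X := fun m => (range (m + 1)).image (TopologicalSpace.denseSeq X)
  let V : ℕ → Finset Y := fun m => (range (m + 1)).image (TopologicalSpace.denseSeq Y)
  have hU : ∀ m, (U m).Nonempty := fun m => (Finset.nonempty_range_add_one).image _
  have hV : ∀ m, (V m).Nonempty := fun m => (Finset.nonempty_range_add_one).image _
  let R : ℕ → ℝ := fun m => ∑ v ∈ V m, ∑ u ∈ U m, (|K u v| + 1)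
  have hR : ∀ m, 0 < R m := fun m =>
    Finset.sum_pos (fun _ _ => Finset.sum_pos (fun _ _ => by positivity) (hU m)) (hV m)
  let l : ℕ → ℝ := fun m => (m + 1) * R m
  have hl : ∀ m, 0 < l m := fun m => mul_pos (by positivity) (hR m)
  choose Km hTP hKm using fun m => step hK (hU m) (hV m) (hl m)
    (ε := Real.exp (-l m) * Real.exp (-l m) * (1 / (m + 1))) (by positivity)
  refine ⟨Km, hTP, fun x y hc => Metric.tendsto_atTop.2 fun η hη => ?_⟩
  obtain ⟨δ', hδ', hc⟩ := Metric.continuousAt_iff.1 hc (η / 2) (half_pos hη)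
  obtain ⟨δ, h0, h1, h2⟩ : ∃ δ : ℝ, 0 < δ ∧ δ ≤ 1 ∧ 2 * δ ≤ δ' :=
    ⟨min 1 (δ' / 2), by positivity, min_le_left _ _, by linarith [min_le_right 1 (δ' / 2)]⟩
  obtain ⟨a, ha⟩ := (TopologicalSpace.denseRange_denseSeq X).exists_dist_lt x h0
  obtain ⟨b, hb⟩ := (TopologicalSpace.denseRange_denseSeq Y).exists_dist_lt y h0
  rw [dist_comm] at ha hb
  obtain ⟨N, hN⟩ := exists_nat_gt (((1 + |K x y|) / δ ^ 2 + 2) / (η / 2))
  refine ⟨max N (max a b), fun m hm => ?_⟩
  simp only [ge_iff_le, max_le_iff] at hm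
  have ua : _ ∈ U m := Finset.mem_image_of_mem _ (Finset.mem_range.2 (Nat.lt_succ_of_le hm.2.1))
  have vb : _ ∈ V m := Finset.mem_image_of_mem _ (Finset.mem_range.2 (Nat.lt_succ_of_le hm.2.2))
  have z1 := Zlow (hl m) ua (ha.trans_le h1)
  have z2 := Zlow (hl m) vb (hb.trans_le h1)
  rw [one_pow, mul_one] at z1 z2
  have e1 : 1 / Z (U m) (l m) x * (1 / Z (V m) (l m) y) *
      (Real.exp (-l m) * Real.exp (-l m) * (1 / (m + 1))) * 2 ≤ 2 / (m + 1) := by
    have a1 := (div_le_one (Zpos (hU m) (l m) x)).2 z1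
    have a2 := (div_le_one (Zpos (hV m) (l m) y)).2 z2
    have a3 := mul_le_one₀ a1 (div_nonneg (Real.exp_pos _).le (Zpos (hV m) (l m) y).le) a2
    have := mul_le_mul_of_nonneg_right a3 (show (0 : ℝ) ≤ 2 / (m + 1) by positivity)
    refine le_trans (le_of_eq ?_) (this.trans_eq (one_mul _))
    ring
  have e2 : |∑ v ∈ V m, ∑ u ∈ U m, P (U m) (l m) x (toLex (.inl u)) *
      P (V m) (l m) y (toLex (.inl v)) * K u v - K x y| ≤
      η / 2 + (1 + |K x y|) / δ ^ 2 / (m + 1) := by
    have s1 : ∀ c : ℝ, ∑ v ∈ V m, ∑ u ∈ U m, P (U m) (l m) x (toLex (.inl u)) *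
        P (V m) (l m) y (toLex (.inl v)) * c = c := by
      intro c
      simp only [← Finset.sum_mul, wsum (hU m), one_mul, wsum (hV m)]
    have s2 : (1 + |K x y|) / δ ^ 2 / (m + 1) = ∑ v ∈ V m, ∑ u ∈ U m,
        1 / (l m * δ ^ 2) * (1 + |K x y|) * (|K u v| + 1) := by
      simp only [← Finset.mul_sum]
      have := (hR m).ne'
      show _ = _ * R m
      simp only [l]
      field_simp
    nth_rewrite 1 [← s1 (K x y), ← s1 (η / 2)]
    rw [s2, ← Finset.sum_sub_distrib, ← Finset.sum_add_distrib]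
    refine (Finset.abs_sum_le_sum_abs _ _).trans (Finset.sum_le_sum fun v hv => ?_)
    rw [← Finset.sum_sub_distrib, ← Finset.sum_add_distrib]
    refine (Finset.abs_sum_le_sum_abs _ _).trans (Finset.sum_le_sum fun u hu => ?_)
    have p0 := (Ple (hU m) (hl m) x (toLex (.inl u))).1
    have q0 := (Ple (hV m) (hl m) y (toLex (.inl v))).1
    have p1 := (Finset.single_le_sum (fun u _ => (Ple (hU m) (hl m) x (toLex (.inl u))).1)
      hu).trans_eq (wsum (hU m) _ _)
    have q1 := (Finset.single_le_sum (fun v _ => (Ple (hV m) (hl m) y (toLex (.inl v))).1)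
      hv).trans_eq (wsum (hV m) _ _)
    have hlm := hl m
    rw [← mul_sub, abs_mul, abs_of_nonneg (mul_nonneg p0 q0)]
    by_cases hn : dist u x < 2 * δ ∧ dist v y < 2 * δ
    · have := hc (x := (u, v)) (by rw [Prod.dist_eq]; exact max_lt (hn.1.trans_le h2) (hn.2.trans_le h2))
      rw [Real.dist_eq] at this
      exact le_add_of_le_of_nonneg (mul_le_mul_of_nonneg_left this.le (mul_nonneg p0 q0))
        (by positivity)
    · refine le_add_of_nonneg_of_le (mul_nonneg (mul_nonneg p0 q0) (half_pos hη).le) ?_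
      rw [mul_assoc (1 / _)]
      refine mul_le_mul ?_ ?_ (abs_nonneg _) (by positivity)
      · rw [not_and_or, not_lt, not_lt] at hn
        rcases hn with hn | hn
        · exact (mul_le_of_le_one_right p0 q1).trans (wfar hlm h0 ua ha hn)
        · exact (mul_le_of_le_one_left q0 p1).trans (wfar hlm h0 vb hb hn)
      · nlinarith [abs_sub (K u v) (K x y), mul_nonneg (abs_nonneg (K u v)) (abs_nonneg (K x y))]
  have e3 : ((1 + |K x y|) / δ ^ 2 + 2) / (m + 1) < η / 2 := by
    have : (N : ℝ) ≤ m := by exact_mod_cast hm.1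
    rw [div_lt_iff₀ (half_pos hη)] at hN
    rw [div_lt_iff₀ (by positivity)]
    nlinarith
  rw [add_div] at e3
  rw [Real.dist_eq]
  have := abs_sub_le (Km m x y) (∑ v ∈ V m, ∑ u ∈ U m, P (U m) (l m) x (toLex (.inl u)) *
      P (V m) (l m) y (toLex (.inl v)) * K u v) (K x y)
  linarith [hKm m x y]

end Pool.Agent.Results.MP_c12a31_an.Approx
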